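import Pool.Agent.H951R3.PB.Main
import Pool.Agent.Q15.DYN.Join
import Pool.Agent.Q15.DYN.Roots

/-!
# Endomorphisms of `ℙ^N` which are joins of rational maps of the line, with few bad places

Number the homogeneous coordinates of `ℙ^(2 k + m - 1)` in `k` pairs `(x_j, y_j)` and `m` single
coordinates `z_l`. Let `f_1, ..., f_k` be rational maps of degree `d` of the line, given by pairs of
binary forms, and `a_l ≠ 0`. The join `F = [f_1(x_1, y_1) : ... : f_k(x_k, y_k) : a_1 z_1^d : ... :
a_m z_m^d]` is an endomorphism of degree `d` of `ℙ^(2 k + m - 1)`. (It has no pencil or hyperplane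
structure which would make it a product map, and the pairs of forms may be multiplied by arbitrary
constants, so that the join may have bad reduction at many places where all the `f_j` have good
reduction.) If every `f_j` has potentially good reduction outside `R` places of the number field `K`
then the join has at most `C ^ (k + m) (R log (1 + R)) ^ k` preperiodic points over `K`, where `C`
depends on nothing but `d` and a bound `D` for the degree of `K`.

Proof. The components of a preperiodic vector are preperiodic points for the `f_j`. Two preperiodic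
vectors with proportional components `x_j = t_j x'_j` have `(t_j / t_i) ^ (d ^ n - d ^ m) = 1` for
common tail and period, so that the quotients `t_j / t_i` are roots of unity. The number of the
preperiodic points of `f_j` is bounded by the theorem on rational maps in terms of the bad places
(`Results/MP_13bc7b_nt/RationalMapsBadPlaces.lean`).
-/

set_option autoImplicit false

namespace Pool.Agent.Results.MP_13bc7b_nt.JoinsOfRationalMaps

open Real NumberField LinearAlgebra.Projectivization

universe u

/-- The homogeneous coordinates of `ℙ^(2 k + m - 1)`: `k` pairs and `m` single coordinates. -/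
abbrev Coord (k m : ℕ) : Type := (Fin k × Fin 2) ⊕ Fin m

/-- The join `[f_1(x_1, y_1) : ... : f_k(x_k, y_k) : a_1 z_1^d : ... : a_m z_m^d]`. -/
noncomputable def join {K : Type u} [Field K] {k m : ℕ} (d : ℕ)
    (f : Fin k → Fin 2 → MvPolynomial (Fin 2) K) (a : Fin m → K) :
    Coord k m → MvPolynomial (Coord k m) K
  | Sum.inl ji => MvPolynomial.rename (fun l : Fin 2 => Sum.inl (ji.1, l)) (f ji.1 ji.2)
  | Sum.inr l => MvPolynomial.C (a l) * MvPolynomial.X (Sum.inr l) ^ d

/-- The forms have no common zero over the algebraic closure other than the origin: they define an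
endomorphism of the projective space. -/
def IsMorphism {K : Type u} [Field K] {ι : Type} (F : ι → MvPolynomial ι K) : Prop :=
  ∀ x : ι → AlgebraicClosure K, (∀ i, MvPolynomial.aeval x (F i) = 0) → x = 0

/-- the vector of the values of the forms -/
noncomputable def image {K : Type u} [Field K] {ι : Type} (F : ι → MvPolynomial ι K) (x : ι → K) :
    ι → K := fun i => MvPolynomial.eval x (F i)

/-- the preperiodic points over `K`: the orbit, as a set of lines, is finite -/
def preper {K : Type u} [Field K] {ι : Type} (F : ι → MvPolynomial ι K) : Set (ℙ K (ι → K)) :=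
  {p | (Set.range fun j : ℕ => Submodule.span K {(image F)^[j] p.rep}).Finite}

/-- Potentially good reduction of `[f 0 : f 1]` at the absolute value `v`: for an extension `w` of
`v` to the algebraic closure there are coordinates `A` over the algebraic closure in which a multiple
of `f` is a pair `g` of forms with `w`-integral coefficients whose reduction has no common zero. -/
def PotentiallyGood {K : Type u} [Field K] (v : AbsoluteValue K ℝ) (d : ℕ)
    (f : Fin 2 → MvPolynomial (Fin 2) K) : Prop :=
  ∃ w : AbsoluteValue (AlgebraicClosure K) ℝ,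
    (∀ x : K, w (algebraMap K (AlgebraicClosure K) x) = v x) ∧
    ∃ g : Fin 2 → MvPolynomial (Fin 2) (AlgebraicClosure K), (∀ i, (g i).IsHomogeneous d) ∧
      ((∀ i m, w ((g i).coeff m) ≤ 1) ∧
        ∀ x : Fin 2 → AlgebraicClosure K, (∀ i, w (x i) ≤ 1) → (∃ i, w (x i) = 1) →
          ∃ i, w (MvPolynomial.eval x (g i)) = 1) ∧
      ∃ (A : Matrix (Fin 2) (Fin 2) (AlgebraicClosure K)) (c : AlgebraicClosure K),
        A.det ≠ 0 ∧ c ≠ 0 ∧ ∀ x : Fin 2 → AlgebraicClosure K,
          A.mulVec (fun i => MvPolynomial.eval x (g i)) =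
            c • fun i => MvPolynomial.aeval (A.mulVec x) (f i)

lemma potGood_iff {L : Type u} [Field L] (v : AbsoluteValue L ℝ) (d : ℕ)
    (f : Fin 2 → MvPolynomial (Fin 2) L) :
    PotentiallyGood v d f ↔ Pool.Agent.H951R3.PB.PotGood v d f := by
  have h : ∀ y : Fin 2 → AlgebraicClosure L, Pool.Agent.H951R3.PB.ev
      (Pool.Agent.H951R3.PB.fL L f) y = fun i => MvPolynomial.aeval y (f i) := by
    intro y
    funext i
    simp only [Pool.Agent.H951R3.PB.ev, Pool.Agent.H951R3.PB.fL]
    rw [MvPolynomial.eval_map, MvPolynomial.aeval_def]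
  unfold PotentiallyGood Pool.Agent.H951R3.PB.PotGood Pool.Agent.H951R3.PB.PotGoodAt
    Pool.Agent.H951R3.PB.Ext Pool.Agent.H951R3.PB.GoodAt
  simp only [h]
  rfl

lemma eval_smul {L ι : Type*} [Field L] {d : ℕ} {f : MvPolynomial ι L}
    (hf : f.IsHomogeneous d) (c : L) (x : ι → L) :
    MvPolynomial.eval (c • x) f = c ^ d * MvPolynomial.eval x f := by
  rw [MvPolynomial.eval_eq, MvPolynomial.eval_eq, Finset.mul_sum]
  refine Finset.sum_congr rfl fun m hm => ?_
  have h1 : ∑ i ∈ m.support, m i = d := by
    have h2 := hf (MvPolynomial.mem_support_iff.1 hm)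
    rw [← h2, Finsupp.weight_apply, Finsupp.sum]
    simp
  simp only [Pi.smul_apply, smul_eq_mul, mul_pow]
  rw [Finset.prod_mul_distrib, Finset.prod_pow_eq_pow_sum, h1]
  ring

lemma join_hom {K : Type u} [Field K] {k m d : ℕ} {f : Fin k → Fin 2 → MvPolynomial (Fin 2) K}
    {a : Fin m → K} (hf : ∀ j i, (f j i).IsHomogeneous d) (i : Coord k m) :
    (join d f a i).IsHomogeneous d := by
  rcases i with ⟨j, i⟩ | l
  · exact (hf j i).rename_isHomogeneous
  · have h := (MvPolynomial.isHomogeneous_C (Coord k m) (a l)).mul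
      ((MvPolynomial.isHomogeneous_X K (Sum.inr l : Coord k m)).pow d)
    show (MvPolynomial.C (a l) * MvPolynomial.X (Sum.inr l) ^ d : MvPolynomial (Coord k m) K).IsHomogeneous d
    simpa using h

lemma join_mor {K : Type u} [Field K] {k m d : ℕ} {f : Fin k → Fin 2 → MvPolynomial (Fin 2) K}
    {a : Fin m → K} (hmor : ∀ j, IsMorphism (f j)) (ha : ∀ l, a l ≠ 0) :
    IsMorphism (join d f a) := by
  intro x hx
  funext i
  rcases i with ⟨j, i⟩ | l
  · have h1 := hmor j (fun l => x (Sum.inl (j, l))) (by
      intro i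
      have h2 := hx (Sum.inl (j, i))
      simp only [join] at h2
      rw [MvPolynomial.aeval_rename] at h2
      exact h2)
    exact congrFun h1 i
  · have h2 := hx (Sum.inr l)
    simp only [join, map_mul, MvPolynomial.aeval_C, map_pow, MvPolynomial.aeval_X, mul_eq_zero] at h2
    rcases h2 with h2 | h2
    · exact absurd ((map_eq_zero _).1 h2) (ha l)
    · exact eq_zero_of_pow_eq_zero h2

/-- sizes of the blocks -/
def sz (k m : ℕ) : Fin k ⊕ Fin m → ℕ := Sum.elim (fun _ => 2) (fun _ => 1)

/-- the coordinates of a block -/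
def idx {k m : ℕ} : ∀ j : Fin k ⊕ Fin m, Fin (sz k m j) → Coord k m
  | Sum.inl j => fun i => Sum.inl (j, i)
  | Sum.inr l => fun _ => Sum.inr l

/-- the map of a block -/
noncomputable def blk {K : Type u} [Field K] {k m : ℕ} (d : ℕ)
    (f : Fin k → Fin 2 → MvPolynomial (Fin 2) K) (a : Fin m → K) :
    ∀ j : Fin k ⊕ Fin m, (Fin (sz k m j) → K) → (Fin (sz k m j) → K)
  | Sum.inl j => fun y => (fun i : Fin 2 => MvPolynomial.eval y (f j i))
  | Sum.inr l => fun y => (fun i : Fin 1 => a l * y i ^ d)

/-- For all `d ≥ 2` and `D` there is `C` such that for every number field `K` of degree at most `D`,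
all `k`, `m`, all rational maps `f_1, ..., f_k` of degree `d` of the line over `K`, all
`a_1, ..., a_m ≠ 0` in `K` and every `R ≥ 1` such that every `f_j` has potentially good reduction at
all finite places of `K` but at most `R`: the join
`[f_1(x_1, y_1) : ... : f_k(x_k, y_k) : a_1 z_1^d : ... : a_m z_m^d]` is an endomorphism of degree `d`
of `ℙ^(2 k + m - 1)`, and it has at most `C ^ (k + m) (R log (1 + R)) ^ k` preperiodic points over
`K`. -/
theorem result (d : ℕ) (hd : 2 ≤ d) (D : ℕ) : ∃ C : ℝ, 0 < C ∧
    ∀ (K : Type u) [Field K] [NumberField K], Module.finrank ℚ K ≤ D →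
    ∀ (k m : ℕ) (f : Fin k → Fin 2 → MvPolynomial (Fin 2) K) (a : Fin m → K),
      (∀ j i, (f j i).IsHomogeneous d) → (∀ j, IsMorphism (f j)) → (∀ l, a l ≠ 0) →
    ∀ R : ℝ, 1 ≤ R →
      (∀ j, ∃ T : Finset (FinitePlace K), (T.card : ℝ) ≤ R ∧
        ∀ v, v ∉ T → PotentiallyGood v.val d (f j)) →
      (∀ i, (join d f a i).IsHomogeneous d) ∧ IsMorphism (join d f a) ∧
      (preper (join d f a)).Finite ∧
      ((preper (join d f a)).ncard : ℝ) ≤ C ^ (k + m) * (R * log (1 + R)) ^ k := by
  classical
  obtain ⟨C0, hC0, H⟩ := Pool.Agent.H951R3.PB.main_pre.{u} d hd D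
  obtain ⟨W, hW, hμ⟩ := Pool.Agent.Q15.DYN.exists_mu.{u} D
  refine ⟨(C0 + 2) * W, by positivity, ?_⟩
  intro K _ _ hK k m f a hf hmor ha R hR hT
  refine ⟨join_hom hf, join_mor hmor ha, ?_⟩
  obtain ⟨μ, hμ1, hμ2⟩ := hμ K hK
  set L : ℝ := R * log (1 + R) with hL
  have hlog : (1 : ℝ) / 2 ≤ log (1 + R) := by
    have h1 : log 2 ≤ log (1 + R) := log_le_log (by norm_num) (by linarith)
    have h2 := Real.log_two_gt_d9
    linarith
  have hL2 : 1 / 2 ≤ L := by nlinarith
  have hsm : ∀ (c : K) (x : Coord k m → K),
      image (join d f a) (c • x) = c ^ d • image (join d f a) x := by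
    intro c x
    funext i
    simp only [image, Pi.smul_apply, smul_eq_mul]
    exact eval_smul (join_hom hf i) c x
  let pr : ∀ j : Fin k ⊕ Fin m, (Coord k m → K) →ₗ[K] (Fin (sz k m j) → K) := fun j =>
    LinearMap.funLeft K K (idx j)
  have hpr : ∀ x : Coord k m → K, (∀ j, pr j x = 0) → x = 0 := by
    intro x hx
    funext i
    rcases i with ⟨j, i⟩ | l
    · exact congrFun (hx (Sum.inl j)) i
    · exact congrFun (hx (Sum.inr l)) (0 : Fin 1)
  have hbs : ∀ j (c : K) (x : Fin (sz k m j) → K), blk d f a j (c • x) = c ^ d • blk d f a j x := by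
    intro j c x
    rcases j with j | l
    · funext i
      exact eval_smul (hf j i) c x
    · funext i
      show a l * (c • x) i ^ d = c ^ d * (a l * x i ^ d)
      rw [Pi.smul_apply, smul_eq_mul]
      ring
  have hbn : ∀ j (x : Fin (sz k m j) → K), x ≠ 0 → blk d f a j x ≠ 0 := by
    intro j x hx h0
    apply hx
    rcases j with j | l
    · have h1 := hmor j (fun i => algebraMap K (AlgebraicClosure K) (x i)) (by
        intro i
        have h2 : MvPolynomial.eval x (f j i) = 0 := congrFun h0 i
        have h4 := MvPolynomial.eval₂_comp_left (algebraMap K (AlgebraicClosure K))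
          (RingHom.id K) (x : Fin 2 → K) (f j i)
        have h5 : MvPolynomial.eval₂ (RingHom.id K) (x : Fin 2 → K) (f j i) = 0 := h2
        rw [h5, map_zero, RingHom.comp_id] at h4
        exact h4.symm)
      funext i
      have h2 := congrFun h1 i
      exact (map_eq_zero (algebraMap K (AlgebraicClosure K))).1 h2
    · funext i
      have h2 : a l * x i ^ d = 0 := congrFun h0 i
      rcases mul_eq_zero.1 h2 with h2 | h2
      · exact absurd h2 (ha l)
      · exact eq_zero_of_pow_eq_zero h2
  have hcomm : ∀ j x, pr j (image (join d f a) x) = blk d f a j (pr j x) := by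
    intro j x
    rcases j with j | l
    · funext i
      show MvPolynomial.eval x (MvPolynomial.rename _ (f j i)) = _
      rw [MvPolynomial.eval_rename]
      rfl
    · funext i
      show MvPolynomial.eval x (MvPolynomial.C (a l) * MvPolynomial.X (Sum.inr l) ^ d) = _
      simp only [map_mul, MvPolynomial.eval_C, map_pow, MvPolynomial.eval_X]
      rfl
  let M : Fin k ⊕ Fin m → ℝ := Sum.elim (fun _ => C0 * L) (fun _ => 1)
  have hM : ∀ j, ∀ X : Finset (Fin (sz k m j) → K), (∀ x ∈ X, x ≠ 0) →
      (∀ x ∈ X, ∀ y ∈ X, ∀ c : K, x = c • y → x = y) →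
      (∀ x ∈ X, Pool.Agent.Q15.DYN.Pre K (blk d f a j) x) → (X.card : ℝ) ≤ M j := by
    intro j X hX0 hXc hXp
    rcases j with j | l
    · obtain ⟨T, hT1, hT2⟩ := hT j
      have h1 := H K hK (f j) (hf j) (hmor j) T (fun v hv => (potGood_iff _ _ _).1 (hT2 v hv)) R hR
        (Or.inl hT1) X hX0 hXc (fun x hx =>
          (Pool.Agent.Q15.DYN.pre_iff (hbs (Sum.inl j))).1 (hXp x hx))
      show (X.card : ℝ) ≤ C0 * L
      rw [hL, ← mul_assoc]
      exact h1
    · show (X.card : ℝ) ≤ 1
      have h1 : X.card ≤ 1 := by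
        rw [Finset.card_le_one]
        intro x hx y hy
        have hy0 : y (0 : Fin 1) ≠ 0 := by
          intro h0
          apply hX0 y hy
          funext i
          rw [show i = (0 : Fin 1) from Subsingleton.elim (α := Fin 1) _ _]
          exact h0
        apply hXc x hx y hy (x (0 : Fin 1) / y (0 : Fin 1))
        funext i
        rw [show i = (0 : Fin 1) from Subsingleton.elim (α := Fin 1) _ _]
        exact (div_mul_cancel₀ (x (0 : Fin 1)) hy0).symm
      exact_mod_cast h1
  have h1 := Pool.Agent.Q15.DYN.card_points (K := K) (V := Coord k m → K)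
    (P := fun x => (Set.range fun j : ℕ =>
      Submodule.span K {(image (join d f a))^[j] x}).Finite)
    (B := ((C0 + 2) * W) ^ (k + m) * L ^ k) (by
      intro X hX0 hXc hXp
      have h2 := Pool.Agent.Q15.DYN.join_bound hd pr hpr _ (blk d f a) hsm hbs hbn hcomm μ hμ1 M hM
        X hX0 hXc hXp
      have h3 : (∏ j, (M j + 1)) ≤ (C0 + 2) ^ (k + m) * L ^ k := by
        rw [Fintype.prod_sum_type]
        have e1 : (∏ j : Fin k, (M (Sum.inl j) + 1)) ≤ ((C0 + 2) * L) ^ k := by
          have : ∀ j : Fin k, M (Sum.inl j) + 1 ≤ (C0 + 2) * L := by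
            intro j
            show C0 * L + 1 ≤ (C0 + 2) * L
            linarith
          calc (∏ j : Fin k, (M (Sum.inl j) + 1)) ≤ ∏ _j : Fin k, ((C0 + 2) * L) :=
                Finset.prod_le_prod (fun j _ => by
                  show 0 ≤ C0 * L + 1
                  positivity) fun j _ => this j
            _ = ((C0 + 2) * L) ^ k := by rw [Finset.prod_const, Finset.card_univ, Fintype.card_fin]
        have e2 : (∏ j : Fin m, (M (Sum.inr j) + 1)) ≤ (C0 + 2) ^ m := by
          have : ∀ j : Fin m, M (Sum.inr j) + 1 ≤ C0 + 2 := by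
            intro j
            show (1 : ℝ) + 1 ≤ C0 + 2
            linarith
          calc (∏ j : Fin m, (M (Sum.inr j) + 1)) ≤ ∏ _j : Fin m, (C0 + 2) :=
                Finset.prod_le_prod (fun j _ => by
                  show (0 : ℝ) ≤ 1 + 1
                  norm_num) fun j _ => this j
            _ = (C0 + 2) ^ m := by rw [Finset.prod_const, Finset.card_univ, Fintype.card_fin]
        have e3 : 0 ≤ ∏ j : Fin m, (M (Sum.inr j) + 1) := Finset.prod_nonneg fun j _ => by
          show (0 : ℝ) ≤ 1 + 1
          norm_num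
        calc _ ≤ ((C0 + 2) * L) ^ k * (C0 + 2) ^ m := mul_le_mul e1 e2 e3 (by positivity)
          _ = _ := by rw [mul_pow, pow_add]; ring
      have h4 : ((μ.card : ℝ)) ^ Fintype.card (Fin k ⊕ Fin m) ≤ (W : ℝ) ^ (k + m) := by
        rw [Fintype.card_sum, Fintype.card_fin, Fintype.card_fin]
        have : (μ.card : ℝ) ≤ W := by exact_mod_cast hμ2
        gcongr
      calc (X.card : ℝ) ≤ _ := h2
        _ ≤ ((C0 + 2) ^ (k + m) * L ^ k) * (W : ℝ) ^ (k + m) :=
            mul_le_mul h3 h4 (by positivity) (by positivity)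
        _ = _ := by rw [mul_pow (C0 + 2) (W : ℝ)]; ring)
  exact h1

end Pool.Agent.Results.MP_13bc7b_nt.JoinsOfRationalMaps
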