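import Mathlib
import Pool.Agent.Q195.HP2

/-!
# Endomorphisms `A x^[d] + H(x) + c` of projective space with a large constant vector

Let `K` be a number field of degree at most `D`, `N ≥ 1`, `d ≥ 2`, `B ≥ 1`, and let `p` be a prime
number such that `d` is prime to `p (p ^ f - 1)` for `1 ≤ f ≤ D B²` (for the rational points over
`ℚ`: `p = 2` and `d` odd). Let `v` be a place of `K` above `p` and consider the map

  `f(x) = A (x_1^d, …, x_N^d) + H(x) + c`

of the affine space, which extends to an endomorphism of `ℙ^N` of degree `d`; here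
`A ∈ GL_N(O_v)`, `H = (H_1, …, H_N)` are arbitrary polynomials of degree less than `d` in
`x_1, …, x_N` with `v`-integral coefficients, and `c ∈ K^N` is a vector such that all coordinates
of `A⁻¹ c` have the same `v`-adic absolute value, which is greater than one. Nothing is assumed at
the other places. Then `f` has at most one preperiodic point `x` outside the hyperplane at
infinity with `[K(x) : K] ≤ B`, and this point is fixed.

Proof. A point with a finite orbit has norm `r = |A⁻¹ c|^(1/d)`, all its coordinates have absolute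
value `r`, and the `d`-th powers of the coordinates are determined modulo smaller elements; as the
residue field contains no `d`-th root of unity except one, any two such points are close, and on
them `f` multiplies distances at least by `r^(d-1)`.
-/

set_option autoImplicit false

namespace Pool.Agent.Results.MP_13bc7b_nt.LargeTranslations

open Module Function

/-- The absolute value of `K` given by the homomorphism `σ` of its algebraic closure to the
algebraic closure of `ℚ_p`. -/
noncomputable def absP {p : ℕ} [Fact p.Prime] {K : Type} [Field K]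
    (σ : AlgebraicClosure K →+* PadicAlgCl p) (x : K) : ℝ := ‖σ (algebraMap K _ x)‖

/-- The map `f(x) = A (x_1^d, …, x_N^d) + H(x) + c` over the algebraic closure of `K`. -/
noncomputable def powMap {K : Type} [Field K] {N : ℕ} (A : Matrix (Fin N) (Fin N) K) (d : ℕ)
    (H : Fin N → MvPolynomial (Fin N) K) (c : Fin N → K) (x : Fin N → AlgebraicClosure K) :
    Fin N → AlgebraicClosure K :=
  fun i => ∑ j, algebraMap K _ (A i j) * x j ^ d + MvPolynomial.aeval x (H i) +
    algebraMap K _ (c i)

/-- The preperiodic points `x` of `f` over the algebraic closure of `K` with `[K(x) : K] ≤ B`. -/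
def preperiodic {K : Type} [Field K] {N : ℕ}
    (f : (Fin N → AlgebraicClosure K) → Fin N → AlgebraicClosure K) (B : ℕ) :
    Set (Fin N → AlgebraicClosure K) :=
  {x | (∃ s t : ℕ, s < t ∧ f^[s] x = f^[t] x) ∧
    finrank K (IntermediateField.adjoin K (Set.range x)) ≤ B}

/-- the absolute value given by a homomorphism to a normed field -/
noncomputable def absOf {Ω E : Type} [Field Ω] [NormedField E] (ι : Ω →+* E) :
    AbsoluteValue Ω ℝ where
  toFun x := ‖ι x‖
  map_mul' x y := by rw [map_mul, norm_mul]
  nonneg' x := norm_nonneg _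
  eq_zero' x := by rw [norm_eq_zero, map_eq_zero]
  add_le' x y := by rw [map_add]; exact norm_add_le _ _

/-- **At most one affine preperiodic point of small degree.** Let `D, B, N ≥ 1`, `d ≥ 2` and let
`p` be a prime number such that `d` is prime to `p (p ^ f - 1)` for `1 ≤ f ≤ D B²`. Let `K` be a
number field of degree at most `D` and `σ` a place of `K` above `p`. Let `A ∈ GL_N(K)` be such that
the entries of `A` and of `A⁻¹` are integral at `σ`, let `H_1, …, H_N ∈ K[x_1, …, x_N]` be of degree
less than `d` with coefficients integral at `σ`, and let `c ∈ K^N` be such that all coordinates of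
`A⁻¹ c` have the same absolute value `ρ > 1` at `σ`. Then the map
`f(x) = A (x_1^d, …, x_N^d) + H(x) + c` has at most one preperiodic point `x` over the algebraic
closure of `K` with `[K(x) : K] ≤ B`, and such a point is a fixed point. -/
theorem result (D B N d p : ℕ) [Fact p.Prime] (hD : 1 ≤ D) (hB : 1 ≤ B) (hN : 1 ≤ N) (hd : 2 ≤ d)
    (hcop : ∀ f, 1 ≤ f → f ≤ D * B ^ 2 → Nat.Coprime d (p * (p ^ f - 1)))
    (K : Type) [Field K] [NumberField K] (hK : finrank ℚ K ≤ D)
    (σ : AlgebraicClosure K →+* PadicAlgCl p) (A : Matrix (Fin N) (Fin N) K) (hdet : IsUnit A.det)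
    (hA : ∀ i j, absP σ (A i j) ≤ 1) (hA' : ∀ i j, absP σ (A⁻¹ i j) ≤ 1)
    (H : Fin N → MvPolynomial (Fin N) K) (hH : ∀ i, (H i).totalDegree < d)
    (hHi : ∀ i a, absP σ ((H i).coeff a) ≤ 1) (c : Fin N → K) (ρ : ℝ) (hρ : 1 < ρ)
    (hc : ∀ i, absP σ ((A⁻¹).mulVec c i) = ρ) :
    (preperiodic (powMap A d H c) B).encard ≤ 1 ∧
      ∀ x ∈ preperiodic (powMap A d H c) B, powMap A d H c x = x := by
  have hp : p.Prime := Fact.out
  have hNe : Nonempty (Fin N) := ⟨⟨0, hN⟩⟩
  have hDB : 1 ≤ D * B ^ 2 := Nat.mul_pos hD (pow_pos hB 2)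
  have hpd : Nat.Coprime d p := (hcop 1 le_rfl hDB).coprime_mul_right_right
  have hcop' : ∀ f, 1 ≤ f → f ≤ D * B ^ 2 → Nat.Coprime d (p ^ f - 1) := fun f h1 h2 =>
    (hcop f h1 h2).coprime_mul_left_right
  let w : AbsoluteValue (AlgebraicClosure K) ℝ := absOf σ
  have hna : IsNonarchimedean w := by
    intro x y
    show ‖σ (x + y)‖ ≤ max ‖σ x‖ ‖σ y‖
    rw [map_add]
    exact PadicAlgCl.isNonarchimedean p _ _
  have hwp : w (p : AlgebraicClosure K) < 1 := by
    show ‖σ (p : AlgebraicClosure K)‖ < 1
    rw [map_natCast]
    have h1 : ((p : ℕ) : PadicAlgCl p) = ((p : ℚ_[p]) : PadicAlgCl p) := by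
      rw [map_natCast]
    rw [h1, PadicAlgCl.norm_extends]
    exact Padic.norm_p_lt_one
  have hAA : A⁻¹ * A = 1 := Matrix.nonsing_inv_mul A hdet
  have hf : powMap A d H c = Pool.Agent.Q195.HP.pmap (A.map (algebraMap K _)) d
      (fun i => MvPolynomial.map (algebraMap K (AlgebraicClosure K)) (H i))
      (fun i => algebraMap K _ (c i)) := by
    funext x i
    unfold powMap Pool.Agent.Q195.HP.pmap
    rw [MvPolynomial.aeval_def, ← MvPolynomial.eval_map]
    rfl
  have key : ∀ x y : Fin N → AlgebraicClosure K, x ∈ preperiodic (powMap A d H c) B →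
      y ∈ preperiodic (powMap A d H c) B → x = y := by
    intro x y hx hy
    have hx1 := hx.1
    have hy1 := hy.1
    rw [hf] at hx1 hy1
    exact Pool.Agent.Q195.HP.global hp hpd hcop' hK w hna hwp A A⁻¹ H c hd hA hA' hAA
      (fun i => by have := hH i; omega) hHi hρ hc hx1 hy1 hx.2 hy.2
  refine ⟨Set.encard_le_one_iff.2 fun x y hx hy => key x y hx hy, fun x hx => ?_⟩
  refine (key _ _ hx ⟨?_, ?_⟩).symm
  · obtain ⟨s, t, hst, h⟩ := hx.1
    refine ⟨s, t, hst, ?_⟩
    rw [← iterate_succ_apply, ← iterate_succ_apply, iterate_succ_apply', iterate_succ_apply', h]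
  · refine le_trans ?_ hx.2
    have hfd : FiniteDimensional K (IntermediateField.adjoin K (Set.range x)) := by
      have : Finite (Set.range x) := Set.finite_range x
      exact IntermediateField.finiteDimensional_adjoin fun z _ => Algebra.IsIntegral.isIntegral z
    have hle : IntermediateField.adjoin K (Set.range (powMap A d H c x)) ≤
        IntermediateField.adjoin K (Set.range x) := by
      rw [IntermediateField.adjoin_le_iff]
      rintro _ ⟨i, rfl⟩
      have hxi : ∀ j, x j ∈ IntermediateField.adjoin K (Set.range x) := fun j =>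
        IntermediateField.subset_adjoin K _ (Set.mem_range_self j)
      have h1 : ∀ a : K, algebraMap K (AlgebraicClosure K) a ∈
          IntermediateField.adjoin K (Set.range x) := fun a =>
        IntermediateField.algebraMap_mem _ a
      show ∑ j, algebraMap K _ (A i j) * x j ^ d + MvPolynomial.aeval x (H i) +
        algebraMap K _ (c i) ∈ _
      refine add_mem (add_mem (sum_mem fun j _ => mul_mem (h1 _) (pow_mem (hxi j) d)) ?_) (h1 _)
      rw [MvPolynomial.aeval_def, MvPolynomial.eval₂_eq']
      exact sum_mem fun a _ => mul_mem (h1 _) (prod_mem fun j _ => pow_mem (hxi j) _)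
    exact IntermediateField.finrank_le_of_le_right hle
end Pool.Agent.Results.MP_13bc7b_nt.LargeTranslations
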