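import Pool.Agent.Q15.DYN.Tri5

/-!
# Triangular endomorphisms of `ℙ^N` with few places of bad reduction

An endomorphism `F = [F_0 : ... : F_N]` of `ℙ^N` is called triangular here if the form `F_i` contains
only the variables `x_0, ..., x_i` for `i ≥ 1` (and `F_0` only `x_0, x_1`): the rational maps
`ℙ^N ⇢ ℙ^(N-1) ⇢ ... ⇢ ℙ^1` which forget the last coordinate semiconjugate `F` to endomorphisms of
`ℙ^(N-1), ..., ℙ^1`. For `N = 1` these are all endomorphisms of the line; among them are the
extensions of the polynomial skew products
`(z_1, ..., z_N) ↦ (f_1(z_1), f_2(z_1, z_2), ..., f_N(z_1, ..., z_N))` to `ℙ^N`.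

The number of the `K`-rational preperiodic points of a triangular endomorphism of degree `d` of
`ℙ^N` with good reduction at all finite places of the number field `K` but at most `s` is bounded in
terms of `N`, `d`, `s` and the degree of `K`.

Proof. Induction on `N`. A preperiodic point of `F` lies over a preperiodic point of the base map on
`ℙ^(N-1)`, the tail and the period of which are bounded by induction. The iterate of `F` of order
the period acts on the (bounded number of) periodic fibres by rational maps of one variable over
`K`; they have potentially good reduction where `F` has good reduction, and the bound for rational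
maps of the line in terms of the number of the bad places
(`Results/MP_13bc7b_nt/RationalMapsBadPlaces.lean`) applies to them. For the base map to be an
endomorphism with good reduction one shows that the form `F_N` has an integral zero on every fibre.
-/

set_option autoImplicit false

namespace Pool.Agent.Results.MP_13bc7b_nt.TriangularEndomorphisms

open MvPolynomial NumberField LinearAlgebra.Projectivization

universe u

/-- The forms have no common zero over the algebraic closure other than the origin: they define an
endomorphism of the projective space. -/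
def IsMorphism {K : Type u} [Field K] {n : ℕ} (F : Fin n → MvPolynomial (Fin n) K) : Prop :=
  ∀ x : Fin n → AlgebraicClosure K, (∀ i, aeval x (F i) = 0) → x = 0

/-- The form `F_i` contains only variables `x_j` with `j ≤ i` (and `j ≤ 1` for `i = 0`). -/
def IsTriangular {K : Type u} [Field K] {n : ℕ} (F : Fin n → MvPolynomial (Fin n) K) : Prop :=
  ∀ i : Fin n, ∀ j ∈ (F i).vars, (j : ℕ) ≤ max (i : ℕ) 1

/-- Good reduction at the absolute value `v` of `K`: for an extension `w` of `v` to the algebraic
closure and some `c ≠ 0` the forms `c F_i` have `w`-integral coefficients, and their reductions have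
no common zero other than the origin. -/
def GoodReduction {K : Type u} [Field K] {n : ℕ} (v : AbsoluteValue K ℝ)
    (F : Fin n → MvPolynomial (Fin n) K) : Prop :=
  ∃ w : AbsoluteValue (AlgebraicClosure K) ℝ,
    (∀ x : K, w (algebraMap K (AlgebraicClosure K) x) = v x) ∧
    ∃ c : AlgebraicClosure K, c ≠ 0 ∧
      (∀ i m, w (c * algebraMap K (AlgebraicClosure K) ((F i).coeff m)) ≤ 1) ∧
      ∀ x : Fin n → AlgebraicClosure K, (∀ i, w (x i) ≤ 1) → (∃ i, w (x i) = 1) →
        ∃ i, w (c * aeval x (F i)) = 1

/-- the vector of the values of the forms -/
noncomputable def image {K : Type u} [Field K] {n : ℕ} (F : Fin n → MvPolynomial (Fin n) K)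
    (x : Fin n → K) : Fin n → K := fun i => eval x (F i)

/-- the preperiodic points over `K`: the orbit, as a set of lines, is finite -/
def preper {K : Type u} [Field K] {n : ℕ} (F : Fin n → MvPolynomial (Fin n) K) :
    Set (ℙ K (Fin n → K)) :=
  {p | (Set.range fun j : ℕ => Submodule.span K {(image F)^[j] p.rep}).Finite}

/-- For all `D`, `s`, `N ≥ 1` and `d ≥ 2` there is `B` such that for every number field `K` of degree
at most `D` and every triangular endomorphism `F` of degree `d` of `ℙ^N` over `K` with good
reduction at all finite places of `K` but at most `s`: `F` has at most `B` preperiodic points in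
`ℙ^N(K)`. -/
theorem result (D s N : ℕ) (hN : 1 ≤ N) (d : ℕ) (hd : 2 ≤ d) : ∃ B : ℕ,
    ∀ (K : Type u) [Field K] [NumberField K], Module.finrank ℚ K ≤ D →
    ∀ F : Fin (N + 1) → MvPolynomial (Fin (N + 1)) K, (∀ i, (F i).IsHomogeneous d) →
      IsMorphism F → IsTriangular F →
    ∀ T : Finset (FinitePlace K), T.card ≤ s → (∀ v, v ∉ T → GoodReduction v.val F) →
      (preper F).Finite ∧ (preper F).ncard ≤ B := by
  obtain ⟨n, rfl⟩ : ∃ n, N = n + 1 := ⟨N - 1, by omega⟩
  obtain ⟨B, hB⟩ := Pool.Agent.Q15.DYN.tri_main.{u} D s n d hd
  refine ⟨B, ?_⟩
  intro K _ _ hK F hF hmor htri T hTs hT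
  have h1 := Pool.Agent.Q15.DYN.card_points (K := K) (V := Fin (n + 2) → K)
    (P := fun x => (Set.range fun j : ℕ => Submodule.span K {(image F)^[j] x}).Finite) (B := B) (by
      intro X hX0 hXc hXp
      have h2 := hB K hK F hF hmor htri T hTs (by
        intro v hv
        obtain ⟨w, hw, c, hc, h3, h4⟩ := hT v hv
        refine ⟨w, hw, c, hc, fun i m => ?_, fun x hx => ?_⟩
        · rw [coeff_C_mul, coeff_map]
          exact h3 i m
        · obtain ⟨i, hi⟩ := h4 x hx.1 hx.2
          refine ⟨i, ?_⟩
          rw [map_mul, eval_C, eval_map, ← aeval_def]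
          exact hi) X hX0 hXc hXp
      exact_mod_cast h2)
  exact ⟨h1.1, by exact_mod_cast h1.2⟩

end Pool.Agent.Results.MP_13bc7b_nt.TriangularEndomorphisms
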